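import Pool.Agent.Y564.BPA.Short

/-!
Every equational axiomatization of bisimilarity over BPA with deadlock and binary Kleene star
contains equations in two or more variables with arbitrarily long star bodies; this holds for every
set of valid equations which derives the action-free two-variable equations
`(c_n)*δ = (x + y)*δ`, `c_0 = x + y`, `c_(k+1) = x + y c_k`.

The process terms, bisimilarity, validity, derivability (`Der`), `IsAxiomatization`, `VarIn` are
those of `Pool.Agent.Helper501.Bpa.Defs`, `comb` is defined in `Pool.Agent.Helper501.Bpa.Transfer`,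
`len` and `starLen` in `Pool.Agent.Y564.BPA.Short`.
-/

namespace Pool.Agent.Results.MP_f6b51f_lc.StarBodyLength

open Pool.Agent.Helper501.Bpa Pool.Agent.Y564.BPA Term

/-- The variable `x` (number 0). -/
abbrev vx (A : Type*) : Term (A ⊕ ℕ) := atom (Sum.inr 0)

/-- The variable `y` (number 1). -/
abbrev vy (A : Type*) : Term (A ⊕ ℕ) := atom (Sum.inr 1)

/-- At least two distinct variables occur in the equation. -/
def TwoVars {A : Type*} (e : Term (A ⊕ ℕ) × Term (A ⊕ ℕ)) : Prop :=
  ∃ x y : ℕ, x ≠ y ∧ VarIn x e ∧ VarIn y e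

theorem result (A : Type*) [Nonempty A] :
    -- the equations `(c_n)*δ = (x + y)*δ` are valid
    (∀ n, Valid (kstar (comb (vx A) (vy A) n) dead) (kstar (plus (vx A) (vy A)) dead)) ∧
    -- the valid equations which have at most one variable or star bodies of length at most `N`
    -- do not derive all of them
    (∀ N, ¬ Der {e : Term (A ⊕ ℕ) × Term (A ⊕ ℕ) | Valid e.1 e.2 ∧
          (¬ TwoVars e ∨ (starLen e.1 ≤ N ∧ starLen e.2 ≤ N))}
        (kstar (comb (vx A) (vy A) (N + 1)) dead) (kstar (plus (vx A) (vy A)) dead)) ∧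
    -- every set of valid equations deriving all of them has equations in two or more variables
    -- with arbitrarily long star bodies, in particular infinitely many
    (∀ E : Set (Term (A ⊕ ℕ) × Term (A ⊕ ℕ)), (∀ e ∈ E, Valid e.1 e.2) →
      (∀ n, Der E (kstar (comb (vx A) (vy A) n) dead) (kstar (plus (vx A) (vy A)) dead)) →
      ∀ N, {e ∈ E | TwoVars e ∧ N < max (starLen e.1) (starLen e.2)}.Infinite) ∧
    -- in particular every equational axiomatization
    (∀ E : Set (Term (A ⊕ ℕ) × Term (A ⊕ ℕ)), IsAxiomatization E →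
      ∀ N, {e ∈ E | TwoVars e ∧ N < max (starLen e.1) (starLen e.2)}.Infinite) := by
  have h3 : ∀ E : Set (Term (A ⊕ ℕ) × Term (A ⊕ ℕ)), (∀ e ∈ E, Valid e.1 e.2) →
      (∀ n, Der E (kstar (comb (vx A) (vy A) n) dead) (kstar (plus (vx A) (vy A)) dead)) →
      ∀ N, {e ∈ E | TwoVars e ∧ N < max (starLen e.1) (starLen e.2)}.Infinite := by
    intro E hE hD N hfin
    obtain ⟨B, hB⟩ := (hfin.image (fun e => max (starLen e.1) (starLen e.2))).bddAbove
    refine comb_not_der (n := max B N) hE ?_ (hD (max B N + 1))
    intro e he h2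
    have key : max (starLen e.1) (starLen e.2) ≤ max B N := by
      by_contra hlt
      push Not at hlt
      have h4 : e ∈ {e ∈ E | TwoVars e ∧ N < max (starLen e.1) (starLen e.2)} :=
        ⟨he, h2, lt_of_le_of_lt (le_max_right _ _) hlt⟩
      have h5 := hB ⟨e, h4, rfl⟩
      simp only at h5
      exact absurd (lt_of_le_of_lt (le_max_left B N) hlt) (not_lt.2 h5)
    have := le_max_left (starLen e.1) (starLen e.2)
    have := le_max_right (starLen e.1) (starLen e.2)
    constructor <;> omega
  refine ⟨fun n => comb_valid_eq n, ?_, h3, ?_⟩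
  · intro N
    refine comb_not_der (n := N) (fun e he => he.1) ?_
    rintro e ⟨_, he | he⟩ h2
    · exact absurd h2 he
    · exact ⟨by have := he.1; omega, by have := he.2; omega⟩
  · intro E hE
    refine h3 E ?_ (fun n => (hE _ _).2 (comb_valid_eq n))
    intro e he
    have h := (hE _ _).1 (Der.ax (E := E) (t := e.1) (u := e.2) he (fun k => atom (Sum.inr k)))
    rwa [osub_atom, inst_atom, inst_atom] at h

end Pool.Agent.Results.MP_f6b51f_lc.StarBodyLength
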